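import Pool.Agent.TH152.BB.CutStm

/-!
BB-AVO: a point off countably many hypersurfaces (helper740).
-/

set_option autoImplicit false

namespace Pool.Agent.TH152.BB

theorem avo_all : S_AVO := by
  intro s
  induction s with
  | zero =>
    intro b hb
    refine ⟨fun i => i.elim0, fun i h => hb i ?_⟩
    have h1 := (MvPolynomial.eq_C_of_isEmpty (b i))
    rw [h1, MvPolynomial.eval_C] at h
    rw [h1, h, map_zero]
  | succ s ih =>
    intro b hb
    have hb' : ∀ i, MvPolynomial.finSuccEquiv ℂ s (b i) ≠ 0 := fun i h =>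
      hb i ((MvPolynomial.finSuccEquiv ℂ s).injective (by rw [h, map_zero]))
    obtain ⟨ν, hν⟩ := ih (fun i => (MvPolynomial.finSuccEquiv ℂ s (b i)).leadingCoeff)
      (fun i => Polynomial.leadingCoeff_ne_zero.2 (hb' i))
    have hP : ∀ i, Polynomial.map (MvPolynomial.eval ν) (MvPolynomial.finSuccEquiv ℂ s (b i)) ≠ 0 :=
      fun i h => hν i (by
        have h2 := congrArg (fun p : Polynomial ℂ =>
          p.coeff (MvPolynomial.finSuccEquiv ℂ s (b i)).natDegree) h
        simpa [Polynomial.coeff_map] using h2)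
    have hc : (⋃ i : ℕ, {z : ℂ | (Polynomial.map (MvPolynomial.eval ν)
        (MvPolynomial.finSuccEquiv ℂ s (b i))).IsRoot z}).Countable :=
      Set.countable_iUnion fun i => (Polynomial.finite_setOfPred_isRoot (hP i)).countable
    obtain ⟨z, hz⟩ : ∃ z : ℂ, z ∉ ⋃ i : ℕ, {z : ℂ | (Polynomial.map (MvPolynomial.eval ν)
        (MvPolynomial.finSuccEquiv ℂ s (b i))).IsRoot z} := by
      by_contra hcon
      push Not at hcon
      exact not_countable_complex (hc.mono fun z _ => hcon z)
    refine ⟨Fin.cons z ν, fun i h => hz ?_⟩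
    rw [Set.mem_iUnion]
    refine ⟨i, ?_⟩
    rw [MvPolynomial.eval_eq_eval_mv_eval'] at h
    simpa using h

end Pool.Agent.TH152.BB
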